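import Pool.Agent.Run7.h16.GE.K1

/-!
Quotients by commutator subgroups, and the rational injectivity of the assembly maps in algebraic
`K`-theory, for an arbitrary coefficient ring.

`R` is any ring, `rat (kgr R)` is the functor `G ↦ ℚ ⊗ K₁(R[G])`, and `hq j` is the functor
`G ↦ H_j(G; ℚ)`. The class `𝒦_R` is the class of the groups `G` with `DetK R G`: for every group `T` and
every family of transformations `α_{j,i} : H_j(G; ℚ) → ℚ ⊗ K₁(R[G × T])`, `i ∈ I_j`, natural in the
group `G`, such that the `α_{j,i}`, `i ∈ I_j`, are linearly independent on `ℤ^j` for each `j`, the sum
of all the `α_{j,i}` is injective on `G`. The components `H_j(G; ℚ) ⊗ K_{1-j}(R) → K₁(R[G]) ⊗ ℚ` of the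
rational assembly map form such a family (`i` runs through a basis of `K_{1-j}(R) ⊗ ℚ`; they are
independent on `ℤ^j` by the fundamental theorem of algebraic `K`-theory), and the groups
`K_n(R[G])`, `n ≤ 1`, are direct summands of `K₁(R[ℤ^m][G])`. So for a torsion-free group in the class
(for all `R`) the assembly map is rationally injective in degrees `n ≤ 1`.

* Let `K` be a normal subgroup of `G` with `H_q(K; ℚ) = 0` for `q ≥ 2`, and let `L ≤ K` be a normal
  subgroup of `G` such that each element of `L` has a positive power in `[K, K]`. If `G / L` is in the
  class, then `G` is in the class.
* If `K` is a virtually free normal subgroup of `G` and `G / [K, K]` is in the class, then so is `G`.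
* If `P` is virtually free, `S` and `L ≤ [S, S]` are normal subgroups of `P` and `H_q(S / L; ℚ) = 0`
  for `q ≥ 2`, then `P / L` is in the class.
* Let `Q` act on a set `V` and on the free group `F(V)` such that each `q` maps each generator `v` to
  a conjugate of the generator `q v`. If the pointwise stabilizers in `Q` of the finite subsets of `V`
  are in the class, then `F(V) ⋊ Q` is in the class.

Nothing is assumed on the quotients beyond the rational injectivity.

Outline of the proof. The chains of `G` modulo `K` form a complex of `ℚ[G / K]`-modules with homology
only in the degrees `0` and `1`, and `L` acts trivially on the edges modulo boundaries. So the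
projection from the chains of `G` to the chains of `G` modulo `K` factors, up to an equivariant
homotopy, through the chains of `G / L`, and `H_j(G; ℚ) → H_j(G / L; ℚ)` is injective. (The homological
part is that of my result `MP_01534c_gt` CommutatorQuotients on the higher signatures.)
-/

namespace Pool.Agent.Results.MP_f7db47_al.CommutatorQuotients

open Run7.h16.GE Run7.h16.NC Pool.Agent.R615.KU

theorem result (R : Type) [Ring R] : QuotClosed (fun G _ => DetK R G) := quotClosed_detK R

end Pool.Agent.Results.MP_f7db47_al.CommutatorQuotients
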