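import Pool.Agent.Run7.h1.FR.Semi

/-!
# Extensions whose kernel has locally finite representation type

`C` is any class of groups with the closure properties `ClosedE C` (it contains `ℤ` and is closed under
subgroups, finite products, free products, overgroups of finite index and directed colimits, and it
satisfies the extension criterion with preimages of virtually cyclic subgroups). All of them are known
for the class of the groups that satisfy the Farrell–Jones conjecture with coefficients and with finite
wreath products.

Let `N` be a normal subgroup of `G` with `G ⧸ N` in `C`. Suppose that for each `g` in `G` and each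
finite subset `E` of `N` there are a group `Γ`, a group `𝒜` of automorphisms of `Γ` whose mapping tori
are in `C`, and a set `𝓗` of homomorphisms `N → Γ` such that

* the elements of `𝓗` separate the elements of the group generated by `E` from `1`,
* the restrictions to `E` of the elements of `𝓗` form finitely many classes modulo `𝒜`,
* conjugation by `g` permutes the elements of `𝓗` up to elements of `𝒜`.

Then `G` is in `C`. Nothing is required of the dynamics of `g` on `𝓗`.

Three special cases are proved in `Run7/h1/FR`.

* `main_inner`: `𝓗` consists of all homomorphisms to a group `Γ` in `C` and `𝒜` of the inner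
  automorphisms. So if `N` is locally separated by its homomorphisms to groups `Γ` in `C`, and the
  restrictions of these homomorphisms to finitely generated subgroups form finitely many classes
  modulo conjugation, then all extensions of `N` by groups in `C` are in `C`.
* `main_range`: `N` is a group of sections of finite range `X → Γ`, and `G` acts on them through the
  unrestricted wreath product of `Γ` with the symmetric group of `X`. For instance `G` may be
  the semidirect product of a Boolean power of `Γ` with a group of automorphisms of the Boolean algebra.
* `semilinear`: `G` is a group of semilinear automorphisms of a finite-dimensional vector space over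
  an algebraic extension `L` of `k`, its image in `Aut (L/k)` and `GL_n` of the algebraic closure of `k`
  are in `C`; here `𝓗` consists of the homomorphisms given by the embeddings of `L`, and they have
  finitely many values at each element because the elements of `L` have finitely many conjugates.

Outline of the proof. By the realization criterion (`MP_490288_al.RealizationCriterion`) it is enough
to realize the conjugation by `g` on a finite subset `E` of `N` in a group in `C` which contains
`⟨E ∪ g E g⁻¹⟩`. Choose representatives of the finitely many classes of the restrictions of the
elements of `𝓗` to this group. Each of them has a successor and a predecessor among them with respect to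
the conjugation by `g`. A walk in both directions which starts at one of them, and follows a fixed
choice of successors and predecessors, is periodic near both ends, up to elements of `𝒜`. It gives a
homomorphism from `⟨E ∪ g E g⁻¹⟩` to the group of sections over `ℤ` with translations which are
periodic, up to two automorphisms in `𝒜`, near both ends, and the translation by `1` realizes the
conjugation by `g`. The sections with finite support form a normal subgroup of this group, and the
quotient embeds in a product of two groups with subgroups of finite index which embed in finite
products of mapping tori of elements of `𝒜`. So this group is in `C`.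
-/

set_option autoImplicit false

namespace Pool.Agent.Results.MP_f7db47_al.FiniteTypeKernels

open Pool.Agent.Y110.FJ

theorem result (C : ∀ (G : Type) [Group G], Prop) (hC : ClosedE C)
    (G : Type) [Group G] (N : Subgroup G) [hN : N.Normal] (hQ : C (G ⧸ N))
    (h : ∀ (g : G) (E : Set N), E.Finite →
      ∃ (Γ : Type) (_ : Group Γ) (𝒜 : Subgroup (MulAut Γ)) (𝓗 : Set (N →* Γ)),
        (∀ ψ ∈ 𝒜, C (Γ ⋊[zpowersHom (MulAut Γ) ψ] Multiplicative ℤ)) ∧
        (∀ n ∈ Subgroup.closure E, (∀ χ ∈ 𝓗, χ n = 1) → n = 1) ∧
        (∃ F : Set (N →* Γ), F.Finite ∧
          ∀ χ ∈ 𝓗, ∃ χ₀ ∈ F, ∃ ψ ∈ 𝒜, ∀ n ∈ E, χ n = ψ (χ₀ n)) ∧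
        (∀ χ ∈ 𝓗, ∃ χ' ∈ 𝓗, ∃ ψ ∈ 𝒜, ∀ n : N,
          χ' ⟨g * n * g⁻¹, hN.conj_mem n n.2 g⟩ = ψ (χ n)) ∧
        (∀ χ ∈ 𝓗, ∃ χ' ∈ 𝓗, ∃ ψ ∈ 𝒜, ∀ n : N,
          χ ⟨g * n * g⁻¹, hN.conj_mem n n.2 g⟩ = ψ (χ' n))) : C G :=
  Pool.Agent.Run7.h1.FR.main hC G N hQ h

end Pool.Agent.Results.MP_f7db47_al.FiniteTypeKernels
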