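import Pool.Agent.Run7.h909.UG.Stm

/-!
# Orthogonal and unitary groups of Witt index one over polynomial rings, in algebraic K-theory

`C` is any class of groups with the closure properties `ClosedE C` which contains the solvable groups.
All this is known for the class of the groups whose wreath products with finite groups satisfy the
K-theoretic Farrell-Jones conjecture with coefficients in additive categories (Wegner for the solvable
groups). The groups in this class satisfy the statement of Q1 for all rings `R`, so the theorem gives Q1
for all subgroups of the groups below, torsion being allowed. The class contains the arithmetic groups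
(Bartels, Lück, Reich, Rüping), for instance the integral orthogonal groups of the signatures `(n, 1)`
and the unitary groups of these signatures over the rings of integers of imaginary quadratic fields; so
part (1) applies to them.

This theorem of helper909 was first handed in for `MP_98022b_gt.UnitaryPolynomial`, where the question is
about `L`-theory and Whitehead groups of torsion-free groups.

Let `A` be a commutative ring with an involution `τ` (the identity is allowed) and `H` a hermitian
matrix over `A`, with rows and columns indexed by a finite set `ι`. `Uh τ H` is the isometry group of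
the orthogonal sum of the hyperbolic plane and the form with the Gram matrix `H`: the group of all
`g ∈ GL (Fin 2 ⊕ ι) A` which preserve
`hb τ H v w = τ v₀ w₁ + τ v₁ w₀ + ∑ i j, τ v_i H i j w_j`.
If `τ = 1` this is the orthogonal group of the quadratic form `2 v₀ v₁ + ∑ i j, H i j v_i v_j`.
`Base τ H` says that `τ` is an involution, `H` is hermitian and anisotropic (`h0 τ H z z = 0` only for
`z = 0`) and `2 ≠ 0`. The polynomial rings have the involution which is `τ` on the coefficients and
fixes the variables (`Polynomial.mapRingHom τ`, `MvPolynomial.map τ`), and `HX H`, `HM (Fin n) H` are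
the constant matrices with the entries of `H`.

* (1) Let `B` be an integral domain with `Base τ H`. If the isometry group over `B` is in `C`, then so
  are the isometry groups over `B[x]` and over `B[x_1, ..., x_n]`, for all `n`.
* (2) If `K` is a field of odd characteristic which is algebraic over its prime field and `Base τ H`
  holds over `K`, then the isometry groups over `K[x_1, ..., x_n]` are in `C`, for all `n`.
* (3) Let `A` be a ring with an involution and a nonnegative degree function which is invariant under
  the involution and satisfies the Cauchy-Schwarz inequality
  `2 deg (h0 z w) ≤ deg (h0 z z) + deg (h0 w w)`, such that the entries of the vectors `z` with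
  `deg (h0 z z)` bounded are of bounded degree, and let `J` be an ideal such that for every `n` some
  power of `J` has no nonzero elements of degree at most `n`. If the image of the isometry group in
  the general linear group over `A / J` is in `C`, then the isometry group over `A` is in `C`.
* (4) Let `A` be a ring with an involution and a degree function as in (3) (negative degrees and
  elements of unbounded degree being allowed) and `ρ` a homomorphism from a group `G` to the isometry
  group over `A`. Suppose that for every `n` there is a homomorphism from `G` to a group in `C` which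
  does not kill any `g ≠ 1` such that the `hb τ H (a_p) (ρ(g) a_q)` are of degree at most `n` for all
  the vectors `a_p`, `a_q` in the list `av H` of isotropic vectors. Then `G` is in `C`.

`UMem C τ H` says that `Uh τ H` is in `C`, `UGrp τ H` is the group `Uh τ H` as a type, and
`RMem C τ H J` says that the image of `Uh τ H` modulo the ideal `J` is in `C`.

Outline of the proof. For isotropic vectors the degree of the scalar product satisfies the inequality
of Ptolemy, `deg (a, b) + deg (c, e) ≤ max (deg (a, c) + deg (b, e)) (deg (a, e) + deg (b, c))`
(`Dat.ptol`): on the isotropic vectors which do not lie on the line at infinity it is, up to a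
normalization, an ultrametric, by the identity
`|y_b|² (a, c) = τ y_b y_c (a, b) + τ y_a y_b (b, c) + h0 (y_b a' - y_a b') (y_b c' - y_c b')` and the
inequality of Cauchy and Schwarz for the anisotropic part. So the largest degree of `(g a_p, k a_q)`
satisfies the four point condition, and this gives an action of the isometry group on a tree. The
stabilizers of the vertices consist of elements of bounded degree, which are detected by the
reductions modulo the powers of `J`, and the theorem on trees with one homomorphism for each vertex
can be applied (`N24.TR.tree_local`). Over a polynomial ring the leading coefficients show that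
`deg (h0 z z)` is twice the largest degree of the entries of `z`.
-/

set_option autoImplicit false

namespace Pool.Agent.Results.MP_f7db47_al.UnitaryPolynomial

open Pool.Agent.Y110.FJ (ClosedE)
open Run7.h909.GT
open Run7.h909.UG

open Matrix

/-- (1) polynomial rings over integral domains -/
def Poly (C : ∀ (G : Type) [Group G], Prop) : Prop :=
  ∀ (B ι : Type) [CommRing B] [IsDomain B] [Fintype ι] [DecidableEq ι] (τ : B →+* B)
    (H : Matrix ι ι B), Base τ H → UMem C τ H →
    UMem C (Polynomial.mapRingHom τ) (HX H) ∧
    ∀ n : ℕ, UMem C (MvPolynomial.map (σ := Fin n) τ) (HM (Fin n) H)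

/-- (2) polynomial rings over algebraic extensions of finite fields -/
def PolyFin (C : ∀ (G : Type) [Group G], Prop) : Prop :=
  ∀ (K ι : Type) [Field K] [Fintype ι] [DecidableEq ι] (p : ℕ) [Fact p.Prime]
    [Algebra (ZMod p) K] [Algebra.IsAlgebraic (ZMod p) K] (τ : K →+* K) (H : Matrix ι ι K),
    Base τ H → ∀ n : ℕ, UMem C (MvPolynomial.map (σ := Fin n) τ) (HM (Fin n) H)

/-- (3) rings with a degree function -/
def Degree (C : ∀ (G : Type) [Group G], Prop) : Prop :=
  ∀ (A ι : Type) [CommRing A] [Nontrivial A] [Fintype ι] [DecidableEq ι] (τ : A →+* A)
    (H : Matrix ι ι A) (deg : A → WithBot ℤ), Dat deg τ H → (∀ x, x ≠ 0 → 0 ≤ deg x) →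
    (2 : A) ≠ 0 →
    (∀ n : ℕ, ∃ m : ℕ, ∀ z : ι → A, deg (h0 τ H z z) ≤ n → ∀ i, deg (z i) ≤ m) →
    ∀ J : Ideal A, RMem C τ H J →
    (∀ n : ℕ, ∃ k : ℕ, ∀ x ∈ J ^ k, deg x ≤ n → x = 0) → UMem C τ H

/-- (4) groups which map to an isometry group -/
def Criterion (C : ∀ (G : Type) [Group G], Prop) : Prop :=
  ∀ (A ι G : Type) [CommRing A] [Nontrivial A] [Fintype ι] [DecidableEq ι] [Group G]
    (τ : A →+* A) (H : Matrix ι ι A) (deg : A → WithBot ℤ), Dat deg τ H →
    ∀ ρ : G →* UGrp τ H,
    (∀ n : ℕ, ∃ (P : Type) (_ : Group P) (f : G →* P), C P ∧ ∀ g : G,
      (∀ p q, deg (pair (ρ g) p q) ≤ n) → f g = 1 → g = 1) → C G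

theorem result (C : ∀ (G : Type) [Group G], Prop) (hC : ClosedE C)
    (hsol : ∀ (G : Type) [Group G], Group.IsSolvable G → C G) :
    Poly C ∧ PolyFin C ∧ Degree C ∧ Criterion C := by
  refine ⟨?_, ?_, ?_, ?_⟩
  · intro B ι _ _ _ _ τ H hB h
    exact ⟨upoly_mem hC hsol hB h, fun n => (umv_mem hC hsol hB h n).2⟩
  · intro K ι _ _ _ p _ _ _ τ H hB n
    refine (umv_mem hC hsol hB ?_ n).2
    exact hC.base.of_injective _ _ (Uh τ H).subtype Subtype.val_injective
      (glK_mem hC (Fin 2 ⊕ ι) K p)
  · intro A ι _ _ _ _ τ H deg h hnn h2 hbd J hJ hn
    exact unitary_mem hC hsol h hnn h2 hbd J hJ hn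
  · intro A ι G _ _ _ _ _ τ H deg h ρ hP
    exact rep0 h hC ρ hP

end Pool.Agent.Results.MP_f7db47_al.UnitaryPolynomial
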